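import Pool.Agent.H13.SB.Final2

/-!
# MP_5caa59_gt, Q2: nonzero signature and many fiberings

`Surf k` is the fundamental group of the closed orientable surface of genus `k`. For
`φ : Surf h →* MulAut (Surf g)` the group `Total φ` is the fundamental group of the surface
bundle over the surface of genus `h` with fibre of genus `g`, with a section, and with
monodromy `φ`.
-/

set_option autoImplicit false

namespace Pool.Agent.Results.MP_5caa59_gt.ManyFiberings

open scoped commutatorElement

variable {g h n : ℕ}

/-- Labels of the generators: `(i, false)` for `a_i` and `(i, true)` for `b_i`. -/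
abbrev Gen (g : ℕ) : Type := Fin g × Bool

/-- The relator `[a_0, b_0] ⋯ [a_{g-1}, b_{g-1}]`. -/
def rel (g : ℕ) : FreeGroup (Gen g) :=
  (List.ofFn fun i : Fin g => ⁅FreeGroup.of (i, false), FreeGroup.of (i, true)⁆).prod

/-- The fundamental group of the closed orientable surface of genus `g`. -/
def Surf (g : ℕ) : Type := PresentedGroup ({rel g} : Set (FreeGroup (Gen g)))

instance instGroupSurf (g : ℕ) : Group (Surf g) :=
  instGroupPresentedGroup ({rel g} : Set (FreeGroup (Gen g)))

/-- The generators. -/
def gen (x : Gen g) : Surf g := PresentedGroup.of x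

theorem rel_lift (x : Gen g) : ∀ r ∈ ({rel g} : Set (FreeGroup (Gen g))),
    FreeGroup.lift (fun y : Gen g => Multiplicative.ofAdd (if y = x then (1 : ℤ) else 0)) r
      = 1 := H13SB.expSum_aux g x

/-- The homomorphism to `ℤ` with `x ↦ 1` and all other generators mapped to `0`. -/
def coord (x : Gen g) : Surf g →* Multiplicative ℤ := PresentedGroup.toGroup (rel_lift x)

/-- Monodromies: actions of `π_1(Σ_h)` on `π_1(Σ_g)`. -/
abbrev Mon (h g : ℕ) : Type := Surf h →* MulAut (Surf g)

/-- The action of an automorphism on `H_1(Σ_g; ℝ)`, in the basis given by the generators. -/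
def act (f : MulAut (Surf g)) (v : Gen g → ℝ) : Gen g → ℝ :=
  fun x => ∑ y, ((coord x (f (gen y))).toAdd : ℝ) * v y

/-- The intersection form on `H_1(Σ_g; ℝ)`. -/
def omega (v w : Gen g → ℝ) : ℝ :=
  ∑ i : Fin g, (v (i, false) * w (i, true) - v (i, true) * w (i, false))

/-- The monodromy preserves the orientation of the fibre. -/
def Oriented (φ : Mon h g) : Prop :=
  ∀ x v w, omega (act (φ x) v) (act (φ x) w) = omega v w

/-- `1`-cocycles of `π_1(Σ_h)` with coefficients in `H_1(Σ_g; ℝ)`. -/
def IsCocycle (φ : Mon h g) (u : Surf h → Gen g → ℝ) : Prop :=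
  ∀ x y, u (x * y) = u x + act (φ x) (u y)

/-- The letters `s_1, s_2, …, s_{4h}` of the relator. -/
def letters (h : ℕ) : List (Surf h) :=
  (List.ofFn fun i : Fin h =>
    [gen (i, false), gen (i, true), (gen (i, false))⁻¹, (gen (i, true))⁻¹]).flatten

/-- Evaluation of a `2`-cochain on the fundamental cycle
`∑_j [s_1 ⋯ s_{j-1} | s_j] - ∑_x [x⁻¹ | x]` of `π_1(Σ_h)`; here `x` runs through the
generators. -/
def eval (c : Surf h → Surf h → ℝ) : ℝ :=
  ∑ j : Fin (letters h).length, c ((letters h).take j).prod ((letters h).get j) -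
    ∑ x : Gen h, c (gen x)⁻¹ (gen x)

/-- The cup product form on `1`-cocycles. -/
def form (φ : Mon h g) (u v : Surf h → Gen g → ℝ) : ℝ :=
  eval fun x y => omega (u x) (act (φ x) (v y))

/-- The largest dimension of a space of cocycles on which `ε` times the form is positive
definite: the number of positive (for `ε = 1`) or negative (for `ε = -1`) eigenvalues of the cup
product form on `H^1(Σ_h; H_1(Σ_g; ℝ))`. -/
noncomputable def index (ε : ℝ) (φ : Mon h g) : ℕ :=
  sSup {n | ∃ W : Submodule ℝ (Surf h → Gen g → ℝ),
    (∀ u ∈ W, IsCocycle φ u ∧ (u ≠ 0 → 0 < ε * form φ u u)) ∧ Module.finrank ℝ W = n}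

/-- The fundamental group of the surface bundle with monodromy `φ`. -/
def Total (φ : Mon h g) : Type := SemidirectProduct (Surf g) (Surf h) φ

instance instGroupTotal (φ : Mon h g) : Group (Total φ) :=
  SemidirectProduct.instGroup

/-- The inclusion of the fibre group. -/
def fib (φ : Mon h g) (k : Surf g) : Total φ := SemidirectProduct.inl k

/-- The section. -/
def sec (φ : Mon h g) (x : Surf h) : Total φ := SemidirectProduct.inr x

/-- `K` is the fibre subgroup of a fibering. -/
def IsFibre {G : Type} [Group G] (K : Subgroup G) : Prop :=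
  ∃ _ : K.Normal, ∃ g h : ℕ, 2 ≤ g ∧ 2 ≤ h ∧ Nonempty (K ≃* Surf g) ∧
    Nonempty (G ⧸ K ≃* Surf h)

/-- The genus of the fibre. -/
def genus (n : ℕ) : ℕ := 3 + 18 * n

/-- The `j`-th handle of the `i`-th special block of the fibre. -/
def handle (i : Fin n) (j : Fin 9) : Fin (genus n) :=
  ⟨3 + 18 * i.val + j.val, by unfold genus; omega⟩

/-- The curve `c_i` around the nine handles of the `i`-th special block. -/
def curve (i : Fin n) : Surf (genus n) :=
  (List.ofFn fun j : Fin 9 => ⁅gen (handle i j, false), gen (handle i j, true)⁆).prod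

/-- `H` is the homomorphism which is the identity on the section, maps the handles of the
`i`-th special block by `a_{ij} ↦ b_{8-j}`, `b_{ij} ↦ a_{8-j}` if `s i = true`, and kills all
other generators of the fibre group. -/
def IsSwitch (φ : Mon 9 (genus n)) (s : Fin n → Bool)
    (H : Total φ →* Surf 9) : Prop :=
  (∀ x, H (sec φ x) = x) ∧
    (∀ i j t, H (fib φ (gen (handle i j, t))) = if s i then gen (j.rev, !t) else 1) ∧
    ∀ m t, (∀ i j, m ≠ handle i j) → H (fib φ (gen (m, t))) = 1

/-- The monodromy preserves the conjugacy class of the curve `c`, the conjugating elements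
being killed by all `H s`. (So the fundamental group of the circle bundle with fibre `c`, which is
the centraliser of `c` in `Total φ`, consists of the products of `c ^ m`, `k⁻¹` and the section
element `x`, and every `H s` agrees on it with the projection to `Surf 9`. The total space is cut
along these circle bundles.) -/
def Preserves (φ : Mon 9 (genus n))
    (H : (Fin n → Bool) → (Total φ →* Surf 9)) (c : Surf (genus n)) : Prop :=
  ∀ x, ∃ k, φ x c = k * c * k⁻¹ ∧ ∀ s, H s (fib φ k) = 1

theorem chain_eq {G : Type} [Group G] (c : G → G → ℝ) (l : List G) (p : G) :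
    ∑ j : Fin l.length, c (p * (l.take j).prod) (l.get j) = H13SB.chainEval c p l := by
  induction l generalizing p with
  | nil => simp [H13SB.chainEval]
  | cons s l ih =>
    rw [H13SB.chainEval, ← ih]
    have h := Fin.sum_univ_succ (n := l.length)
      (fun j : Fin (l.length + 1) => c (p * ((s :: l).take j).prod) ((s :: l).get j))
    refine h.trans ?_
    congr 1
    · simp
    · refine Finset.sum_congr rfl fun j _ => ?_
      simp [mul_assoc]

theorem form_eq (φ : Mon h g) (u v : Surf h → Gen g → ℝ) :
    form φ u v = H13SB.form (g := g) (h := h) φ u v := by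
  have h1 := chain_eq (fun x y => omega (u x) (act (φ x) (v y))) (letters h) 1
  simp only [one_mul] at h1
  rw [form, eval, h1]
  rfl

theorem index_one (φ : Mon h g) :
    index 1 φ = H13SB.posIndex (g := g) (h := h) φ := by
  rw [index, H13SB.posIndex]
  congr 1
  ext n
  constructor
  · rintro ⟨W, h1, h2⟩
    refine ⟨W, fun u hu => (h1 u hu).1, fun u hu h0 => ?_, h2⟩
    have := (h1 u hu).2 h0
    rw [one_mul, form_eq] at this
    exact this
  · rintro ⟨W, h1, h2, h3⟩
    refine ⟨W, fun u hu => ⟨h1 u hu, fun h0 => ?_⟩, h3⟩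
    rw [one_mul, form_eq]
    exact h2 u hu h0

theorem index_neg (φ : Mon h g) :
    index (-1) φ = H13SB.negIndex (g := g) (h := h) φ := by
  rw [index, H13SB.negIndex]
  congr 1
  ext n
  constructor
  · rintro ⟨W, h1, h2⟩
    refine ⟨W, fun u hu => (h1 u hu).1, fun u hu h0 => ?_, h2⟩
    have := (h1 u hu).2 h0
    rw [neg_one_mul, form_eq] at this
    exact neg_pos.1 this
  · rintro ⟨W, h1, h2, h3⟩
    refine ⟨W, fun u hu => ⟨h1 u hu, fun h0 => ?_⟩, h3⟩
    rw [neg_one_mul, form_eq]
    exact neg_pos.2 (h2 u hu h0)

/-- For every `n` there is a surface bundle over the surface of genus nine, with a section, with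
fibre of genus `3 + 18 n` and with signature `4`, whose fundamental group has `2 ^ n` fibre
subgroups, the kernels of the homomorphisms `H s`. The monodromy preserves the curves `c_i`. -/
theorem result (n : ℕ) :
    ∃ φ : Mon 9 (genus n), Oriented φ ∧
      index 1 φ = 50 + 324 * n ∧ index (-1) φ = 46 + 324 * n ∧
      ∃ H : (Fin n → Bool) → (Total φ →* Surf 9),
        (∀ s, IsSwitch φ s (H s) ∧ IsFibre (H s).ker) ∧
        (Function.Injective fun s => (H s).ker) ∧
        ∀ i, Preserves φ H (curve i) := by
  obtain ⟨g, e, φ, hg, he, h1, h2, h3, H, h4, h5, h6⟩ := H13SB.main2 n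
  have hg' : g = genus n := hg
  clear hg
  subst hg'
  have he' : ∀ i j, e i j = handle i j := fun i j => Fin.ext (he i j)
  have hc : ∀ i, H13SB.curve (e i) = curve i := by
    intro i
    have h : e i = handle i := funext (he' i)
    rw [h]
    rfl
  refine ⟨φ, h1, (index_one φ).trans h2, (index_neg φ).trans h3, H,
    fun s => ⟨⟨(h4 s).1, ?_, ?_⟩, ?_⟩, h5, ?_⟩
  · intro i j t
    rw [← he']
    exact (h4 s).2.1 i j t
  · intro m t hm
    exact (h4 s).2.2.1 m t fun i j => by rw [he']; exact hm i j
  · obtain ⟨g', h', e1, e2, e3, e4, e5⟩ := (h4 s).2.2.2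
    exact ⟨e4, g', h', e1, e2, e3, e5⟩
  · intro i γ
    obtain ⟨k, hk, hk'⟩ := h6 i γ
    rw [hc] at hk
    exact ⟨k, hk, hk'⟩

end Pool.Agent.Results.MP_5caa59_gt.ManyFiberings
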